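import Pool.Agent.H833.CV.Quo

/-!
# All quotients of powers of elliptic K3 surfaces by finite groups

Let `S` be any complex K3 surface with a fibration in curves of genus one (for example any K3 surface
of Picard number at least five), let `Γ` be any finite group of automorphisms of the power `S ^ m`, and
let `Y` be a smooth projective variety which is birational to `S ^ m / Γ`. We prove Q1 for `Y`, in
all degrees: if `h^(i,0)(Y) = 0` then the restriction `H^i(Y, ℚ) → H^i(U, ℚ)` is zero for a dense
Zariski open subset `U`.

The translation. Every automorphism of `S ^ m` is of the form `(x_j) ↦ (g_j (x_(σ j)))` with a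
permutation `σ` and automorphisms `g_j` of `S` (Beauville), and the group of the automorphisms of `S` acts
on the transcendental part `T` of `H²(S, ℚ)` as a finite cyclic group (Nikulin), generated by the action
`Q` of an automorphism `h` with `h^* ω = ζ ω`; so `g_j` acts on `T` as `Q ^ k_j`. The forms on `Y` are the
`Γ`-invariant forms on `S ^ m`; the space `H^(2 i,0)(S ^ m)` has the basis `ω_J`, for the sets `J` of
`i` indices. It contains no invariants if and only if for all `J` an element of `Γ` maps `J` to itself and
multiplies `ω_J` by a number `≠ 1` (`NoInvariants`). The cohomology of `S ^ m` in degree `2 i` is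
spanned by the exterior products of `i` classes in `T` and `m - i` classes `1`, and of products with
the class of a divisor or of a point as a factor, which restrict to zero on an open subset; there is
no cohomology in odd degrees. The restriction of the cohomology of `Y` to a small open subset injects
into the one of the `Γ`-invariant classes on `S ^ m`. The theorem: all `Γ`-invariant classes of degree
`2 i` are zero at the generic point of `S ^ m`, and also at all other points `x` of `S ^ m` over `K`.

The proof. By `MP_83b46e_ag.EllipticK3` (Voisin's conjecture for the surface `S` over `K`) products of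
pull backs of classes of `T` under two points `x`, `x'` of `S` over `K` are symmetric in the points. It
follows that the action of `Q` can be moved from one factor to another. So the part of an
invariant class with the indices in `J` satisfies, at the generic point, the relation
`(Q ^ e - 1) = 0`, where `e` is the sum of the `k_j` over `J` for a suitable element of `Γ`, with
`ζ ^ e ≠ 1`; and `Q ^ e - 1` is invertible.

The geometry at the generic point is described by `Classes`, as in `PowersOfEllipticK3`; there are no
hypotheses on the endomorphisms of `T`.
-/

set_option autoImplicit false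

namespace Pool.Agent.Results.MP_1c689d_ag.FiniteQuotientsOfPowers

open Pool.Agent.Q263.K3 (K3Type)
open Pool.Agent.H833.EK Pool.Agent.H833.CV

/-- **Q1 for all quotients of powers of elliptic K3 surfaces by finite groups**: if there are no
invariant holomorphic forms of degree `2 i` then the invariant classes of degree `2 i` vanish at the
generic point. -/
theorem result {K : Type} [Field K] [CharZero K] [IsAlgClosed K] (S : Geo K) (hS : EllK3 S)
    {r : ℕ} (T : K3Type r) {A : Type} [CommRing A] [Algebra ℂ A] (c : Classes S T A)
    (h : S.Pt K → S.Pt K) (Q : Matrix (Fin r) (Fin r) ℚ) (ζ : ℂ)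
    (hQ : (Q.map (fun x => (x : ℂ))).mulVec T.ω = ζ • T.ω)
    (hh : ∀ x a, c.cl (h x) a = ∑ b, (Q b a : ℂ) • c.cl x b) (m : ℕ)
    (Γ : Set (Equiv.Perm (Fin m) × (Fin m → ℕ))) (i : ℕ) (hΓ : NoInvariants ζ Γ i)
    (t : (Fin m → Option (Fin r)) → ℂ)
    (hi : ∀ I, t I ≠ 0 → (Finset.univ.filter fun j => I j ≠ none).card = i)
    (ht : ∀ γ ∈ Γ, pull (Q.map (fun x => (x : ℂ))) γ t = t) (x : Fin m → S.Pt K) :
    ∑ I, t I • ∏ j, c.clO (x j) (I j) = 0 :=
  quot_main hS c hQ hh hΓ hi ht x

end Pool.Agent.Results.MP_1c689d_ag.FiniteQuotientsOfPowers
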