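import Mathlib
import Pool.Agent.H943.KF.Con3

/-!
# Coniveau one in degree three for the abelian varieties of Harris and Taylor

Let `F` be a CM field which contains an imaginary quadratic field `k`, and let `D` be a division
algebra of degree `n` over its centre, which contains `F`. The simple Shimura varieties of Harris
and Taylor (of fake unitary groups) parametrize abelian varieties `A` with an action of `D`, with
`dim D = 2 dim A = [F : ℚ] n N`, such that each embedding `τ` of `F` in `ℂ` occurs in the tangent
space of `A` with multiplicity `n (t τ)`, where `t τ₀ = 1` for one embedding `τ₀`, `t τ = 0` for all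
other `τ` with the same restriction to `k`, and `t τ = N - t τ'` if `τ'` is the complex conjugate of
`τ`: the signature is `(1, N - 1)` at one real place and `(0, N)` at the other places. They are
projective varieties of dimension `N - 1`. If `k = F` the signature is `(1, N - 1)`.

**Theorem.** Let `N ≥ 3` be prime to the degree of the Galois closure of `F` over `F` (there is no
condition if `F` is a Galois extension of `ℚ`, for instance if `F = k`), and `N ≥ 4` if `F = k`.
Let `A` be any of these abelian varieties (there is no condition on `A`: it may be simple or not
simple, generic, special, or of CM type), or any abelian variety with an action of `D` with this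
signature which is simple as an abelian variety with an action of `D` (for instance a simple abelian
variety with multiplication by `F` with this signature). Then

1. for all powers `A ^ m`, in all degrees `s ≤ 3` and for all `l`, every Hodge substructure of
   `H^s(A ^ m, ℚ)` of level at most `s - 2 l` is contained in the span of the products of `l` divisor
   classes with rational classes of degree `s - 2 l`: the generalized Hodge conjecture is true in
   degree at most three for all powers of `A`;
2. this is sharp: for all `m > 0` there are Hodge substructures of `H^4(A ^ m, ℚ)` of level at most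
   two which are not contained in the span of the products of divisor classes with rational classes.

**The problem.** Let `Y` be a smooth projective variety dominated by some power of `A`, that is,
with a dominant rational map `A ^ m ⇢ Y` (for instance, a resolution of the quotient of `A ^ m` by a
finite group). If `h^{3,0}(Y) = 0` then the restriction of `H^3(Y, ℚ)` to a dense Zariski open subset
is zero: the pull-back of `H^3(Y, ℚ)` to a blow-up of `A ^ m` is a Hodge substructure without part
of type `(3, 0)`, so it is contained in the sum of the products of divisor classes on `A ^ m` with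
classes of degree one and of the classes which come from the exceptional divisors, and a
Gysin map shows that the classes on `Y` are supported on a divisor too. So the answer to Q1 is
positive for `i = 3` for all these `Y`, for complete families of abelian varieties of
arbitrarily large dimension, without exceptional points.

It is essential for this that one of the numbers `t τ₀`, `N - t τ₀` is one. For the signature
`(2, N - 2)`, with `N ≥ 5` odd, the corresponding statement is false at some special points, where
`A` has complex multiplication by the compositum of `k` and a cyclic field of degree `N` (this is not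
formalized here), although the Hodge classes on all powers are polynomials in divisor classes.

The abelian varieties are given by their period matrices `Z`: `A = ℂ ^ g / (ℤ ^ g + Z ℤ ^ g)`, where
`Z` is symmetric with positive definite imaginary part (so `A` is principally polarized; each
abelian variety is isogenous to such a variety, and all the conditions and the conclusion are
invariant under isogeny).

The proof. We determine the relative signature of `A` with respect to the centre `C` of
`End (A) ⊗ ℚ`, as in `Pool.Agent.Results.MP_e12fcd_ag.SimpleShimuraVarieties`: `C` is a CM field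
which contains `F`, the relative rank `n'` of `A` over `C` satisfies `n' [C : F] = N`, and the
relative multiplicity `r x` of an embedding `x` of `C` is one for one extension of `τ₀` and zero for
all other `x` with the same restriction to `k`. It is coprime, separated and nondegenerate. The
generalized Hodge conjecture by divisors in degree at most `s` is then equivalent to the following
statement (`Pool.Graph` library, `MP_90e98f_ag.SignatureCriterion`): each function `a` with
`a x + a x' ≤ n'` and with sum at most `s` is bounded by a translate of `r`. Let the sum of `a` be at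
most three. On one of the two halves, given by the two embeddings of `k`, the sum of `a` is at most
one. If it is one, we translate the point of this half with `a x = 1` to the point with `r = 1`. If
it is zero, we use that there is a point in the other half with `a x < n'`. For sum four this fails
for each function `a` which has sum two on both halves.
-/

set_option autoImplicit false

namespace Pool.Agent.Results.MP_1c689d_ag.HarrisTaylorDegreeThree

open Module NumberField Pool.Agent.W437.HC Pool.Agent.W437.HD Pool.Agent.W546.GHC

/-- Rational matrices of size `2 g`. They act on the rational homology `ℚ ^ (2 g)` of the abelian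
variety `A = ℂ ^ g / (ℤ ^ g + Z ℤ ^ g)`, which is mapped to the tangent space `ℂ ^ g` by
`perOne Z : (a, b) ↦ a + Z b`. -/
abbrev Mat (g : ℕ) : Type := Matrix (Fin g ⊕ Fin g) (Fin g ⊕ Fin g) ℚ

variable {g : ℕ} (Z : Matrix (Fin g) (Fin g) ℂ)

/-- The complex matrix `M` is the action on the tangent space of the endomorphism of `A` (up to
isogeny) given by the rational matrix `x`. -/
def ActsOnTangent (x : Mat g) (M : Matrix (Fin g) (Fin g) ℂ) : Prop :=
  ∀ w : Fin g ⊕ Fin g → ℚ, perOne Z (x.mulVec w) = M.mulVec (perOne Z w)

/-- The rational matrix `x` is an endomorphism of `A` (up to isogeny). -/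
def IsEndomorphism (x : Mat g) : Prop := ∃ M, ActsOnTangent Z x M

variable {F : Type} [Field F] [NumberField F]

/-- The tangent vectors on which the field `F`, which acts on `A` by `j`, acts through the
embedding `τ`. -/
def eigenspace (j : F →+* Mat g) (τ : F →+* ℂ) : Submodule ℂ (Fin g → ℂ) where
  carrier := {u | ∀ a M, ActsOnTangent Z (j a) M → M.mulVec u = τ a • u}
  zero_mem' := fun a M _ => by rw [Matrix.mulVec_zero, smul_zero]
  add_mem' := fun {x y} hx hy a M h => by rw [Matrix.mulVec_add, hx a M h, hy a M h, smul_add]
  smul_mem' := fun c x hx a M h => by rw [Matrix.mulVec_smul, hx a M h, smul_comm]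

/-- `A` has an action of the division algebra `D`, of degree `n` (so the dimension of `D` over its
centre is `n ^ 2`), whose centre contains the field `F` (embedded by `j`), such that
`2 dim A = [F : ℚ] n N` and the embedding `τ` of `F` occurs in the tangent space of `A` with
multiplicity `n * t τ`. -/
structure HasSignature (D : Subalgebra ℚ (Mat g)) (j : F →+* Mat g) (n N : ℕ)
    (t : (F →+* ℂ) → ℕ) : Prop where
  endo : ∀ x ∈ D, IsEndomorphism Z x
  division : ∀ x ∈ D, x ≠ 0 → IsUnit x
  degree : finrank ℚ D = n ^ 2 * finrank ℚ (Subalgebra.center ℚ D)
  mem : ∀ a, j a ∈ D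
  central : ∀ a, ∀ x ∈ D, j a * x = x * j a
  dim : 2 * g = finrank ℚ F * (n * N)
  signature : ∀ τ, finrank ℂ (eigenspace Z j τ) = n * t τ

/-- `A` is simple as an abelian variety with an action of `D`: all nonzero endomorphisms of `A`
which commute with `D` are invertible (up to isogeny). This holds if `A` is simple, since then all
nonzero endomorphisms are invertible. -/
def IsSimpleOver (D : Subalgebra ℚ (Mat g)) : Prop :=
  ∀ x, IsEndomorphism Z x → (∀ y ∈ D, x * y = y * x) → x ≠ 0 → IsUnit x

/-- The complex conjugate of an embedding. -/
noncomputable def conj (τ : F →+* ℂ) : F →+* ℂ := (starRingEnd ℂ).comp τ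

/-- The translate of an embedding by an automorphism of `ℂ`. -/
def translate (σ : ℂ ≃+* ℂ) (τ : F →+* ℂ) : F →+* ℂ := (σ : ℂ →+* ℂ).comp τ

/-- The group of the permutations of the embeddings of `F` in `ℂ` which are induced by the
automorphisms of `ℂ`. It is isomorphic to the Galois group of the Galois closure of `F`. -/
def galoisGroup (F : Type) [Field F] : Subgroup (Equiv.Perm (F →+* ℂ)) where
  carrier := {π | ∃ σ : ℂ ≃+* ℂ, ∀ τ, π τ = translate σ τ}
  mul_mem' := by
    rintro π π' ⟨σ, hσ⟩ ⟨σ', hσ'⟩
    exact ⟨σ'.trans σ, fun τ => by rw [Equiv.Perm.mul_apply, hσ', hσ]; rfl⟩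
  one_mem' := ⟨RingEquiv.refl ℂ, fun τ => rfl⟩
  inv_mem' := by
    rintro π ⟨σ, hσ⟩
    refine ⟨σ.symm, fun τ => ?_⟩
    rw [Equiv.Perm.inv_eq_iff_eq, hσ]
    ext x
    exact (σ.apply_symm_apply (τ x)).symm

/-- The order of the stabilizer of the embedding `τ` in the Galois group of the Galois closure of
`F`. It is the degree of the Galois closure of `F` over `F`; it is equal to one if `F` is a Galois
extension of `ℚ`. -/
noncomputable def closureDegree (τ : F →+* ℂ) : ℕ :=
  Nat.card {π : galoisGroup F // (π : Equiv.Perm (F →+* ℂ)) τ = τ}

/-- The signature is `(1, N - 1)` at one real place of `F` and `(0, N)` at the other places, with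
respect to the imaginary quadratic subfield `k` of `F` (embedded by `i`): there is an embedding `τ₀`
such that `t τ₀ = 1`, `t τ = 0` for the other embeddings `τ` with the same restriction to `k`, and
`t τ = N` for the embeddings `τ` with different restriction to `k`, except for the complex conjugate
of `τ₀`. -/
def IsHarrisTaylor {k : Type} [Field k] (i : k →+* F) (N : ℕ) (t : (F →+* ℂ) → ℕ) : Prop :=
  ∃ τ₀ : F →+* ℂ, t τ₀ = 1 ∧
    (∀ τ, τ ≠ τ₀ → τ.comp i = τ₀.comp i → t τ = 0) ∧
    (∀ τ, τ ≠ conj τ₀ → τ.comp i ≠ τ₀.comp i → t τ = N)

/-- Let `A` be an abelian variety, `A ≠ 0`, with an action of a division algebra `D` of degree `n`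
whose centre contains a CM field `F`, with `2 dim A = [F : ℚ] n N`, and let the signature be
`(1, N - 1)` at one real place of `F` and `(0, N)` at the other places, with respect to an imaginary
quadratic subfield `k` of `F`. Suppose that `N ≥ 3`, `[F : ℚ] N ≥ 8`, and that `N` is prime to the
degree over `F` of the Galois closure of `F`, and that `A` is simple over `D`, or that the dimension
of `D` is `2 dim A` (the simple Shimura varieties of Harris and Taylor: the theorem holds for all
their points). Then for all powers of `A` the generalized Hodge conjecture holds by divisors in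
degree at most three, for every coniveau; and for no power `A ^ m`, `m > 0`, does it hold by divisors
in degree four for coniveau one. -/
theorem result (hsymm : Z.transpose = Z) (hpos : (Z.map Complex.im).PosDef) (hg : 0 < g)
    [IsCMField F] {k : Type} [Field k] [NumberField k] [IsCMField k] (hk : finrank ℚ k = 2)
    (i : k →+* F) (D : Subalgebra ℚ (Mat g)) (j : F →+* Mat g) (n N : ℕ) (t : (F →+* ℂ) → ℕ)
    (hD : HasSignature Z D j n N t) (hsimple : IsSimpleOver Z D ∨ finrank ℚ D = 2 * g)
    (hN : 3 ≤ N) (hFN : 8 ≤ finrank ℚ F * N)
    (hcop : ∀ τ : F →+* ℂ, Nat.Coprime N (closureDegree τ)) (ht : IsHarrisTaylor i N t) :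
    (∀ m s l, s ≤ 3 → DivisorialConiveau (perPow Z m) s l) ∧
      ∀ m, 0 < m → ¬ DivisorialConiveau (perPow Z m) 4 1 := by
  obtain ⟨h1, h2, h3, h4, h5, h6, h7⟩ := hD
  obtain ⟨τ₀, ht0, hd0, hd1⟩ := ht
  have hdiv : ∀ x ∈ D, x ≠ 0 → ∃ y, x * y = 1 := by
    intro x hx hx0
    obtain ⟨u, hu⟩ := h2 x hx hx0
    exact ⟨(u⁻¹ : (Mat g)ˣ), by rw [← hu, Units.mul_inv]⟩
  have hDv : Pool.Agent.H943.KS.Dv Z D := by
    rcases hsimple with h | h
    · refine ⟨h1, hdiv, fun x hx hxD hx0 => ?_⟩
      obtain ⟨u, hu⟩ := h x hx hxD hx0
      exact ⟨(u⁻¹ : (Mat g)ˣ), by rw [← hu, Units.mul_inv]⟩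
    · exact Pool.Agent.H943.KS.Dv_of_dim h1 hdiv h
  have hgal : galoisGroup F =
      (@MulAction.toPermHom (RingAut ℂ) (F →+* ℂ) _ (Pool.Agent.H943.KF.embAct F)).range := by
    ext π
    constructor
    · rintro ⟨σ, hσ⟩
      exact ⟨σ, Equiv.ext fun τ => (hσ τ).symm⟩
    · rintro ⟨σ, rfl⟩
      exact ⟨σ, fun τ => rfl⟩
  refine Pool.Agent.H943.KF.coniveau_HT hsymm hpos hg hDv h4 h5 h3 hN h6 (t := t) h7
    (fun τ => ?_) hFN hk i ht0 hd0 hd1
  have h8 := hcop τ
  rw [closureDegree, hgal] at h8
  exact h8

end Pool.Agent.Results.MP_1c689d_ag.HarrisTaylorDegreeThree
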