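import Pool.Agent.H842.GH.S6

/-!
# Coniveau one for products of powers of very general cyclic coverings

Let `X_i → Y_i`, `i = 1, …, r`, be families of cyclic coverings of smooth projective varieties, of
any degrees `q_i ≥ 3` (equal or different, prime or composite), branched along the members of linear
systems (the simplest case: the hypersurfaces `w ^ q = F (x_0, …, x_n)` in a weighted projective
space, where `F` is homogeneous of degree `q m`). Let `T` be the covering transformation and `V_i`
the part of the middle cohomology of `X_i` on which `T` has no eigenvalue `1` or `- 1` (if `q_i` is odd
and `Y_i` is a projective space the rest of the cohomology of `X_i` consists of powers of the class of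
a hyperplane). When the branch divisor acquires an ordinary double point, the covering acquires a
singularity `w ^ q = x_1 ^ 2 + ⋯ + x_n ^ 2`, whose monodromy is `± T` on the space `ℚ[T] δ` generated
by the vanishing cycle and `1` on its orthogonal complement (Pham): this is the hypothesis
`HasReflection`, one such degeneration for each `i` is enough.

The theorem describes, for very general members, all sub-Hodge structures without holomorphic forms
of `V_(c 1) ⊗ ⋯ ⊗ V_(c k)`, a part of `H ^ i (X_(c 1) × ⋯ × X_(c k))`, `i = n (c 1) + ⋯ + n (c k)`,
where `n` is the dimension: if `W` is a sub-Hodge structure whose part of type `(i, 0)` is zero then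
`W` is contained in the sum of the images of the products with the forms
`Q (v_p, T ^ a v_q)`, `p ≠ q`. These forms are the Künneth components of the graphs of the powers
of `T`, pulled back to `X_(c 1) × ⋯ × X_(c k)`; the products of such a class with any other class
vanish outside of a subvariety (the set of the points with `x_p = T ^ a x_q`, up to the powers of the
hyperplane classes). So all of `W` vanishes on a dense Zariski open subset, as predicted by
Grothendieck. This is proved in two cases:

(1) `X_i` is a covering of degree `q_i > 2` of the projective space of dimension `n_i`, branched along
a hypersurface of degree `q_i m_i` (or has the same type of cohomology), and `X_i` is not repeated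
more than `binomial (m_i - 1, n_i)` times: this is the smallest of the numbers
`h ^ (n, 0) (V_(i, b))`, where `V_(i, b)`, `0 < b < q_i`, are the eigenspaces of `T` in `V_i`;

(2) in general: fewer than half of `dim V_(i, b)` factors are of type `i`, and for all eigenspaces
`V_(c 1, b 1), …, V_(c k, b k)` there is a `t` prime to `d` (an automorphism of `ℚ (ζ_d)`) such that
no factor occurs more than `h ^ (n, 0)` times in `V_(c 1, t b 1), …, V_(c k, t b k)`. (If this is
false then the sum of the tensor products of exterior powers of these spaces over all `t` is a
sub-Hodge structure without holomorphic forms which does not come from the graphs.)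

Consequence: if a smooth projective variety `Y` is dominated by a product `X_(c 1) × ⋯ × X_(c k)` of
such very general coverings of projective spaces of odd degrees (for instance a resolution of a
quotient by a finite group, or any image) and `h ^ (i, 0) (Y) = 0`, then the restriction of
`H ^ i (Y, ℚ)` to a dense Zariski open subset is zero: the pull-back of `H ^ i (Y)` is a sub-Hodge
structure of `H ^ i (X_(c 1) × ⋯ × X_(c k))` without a part of type `(i, 0)`, and the Künneth
components of it which involve classes of hyperplanes vanish on a dense open subset anyway.

The proof: by the polarization `W` has a complement which is a sub-Hodge structure; the projection to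
`W` is a Hodge class on `V_(c 1) × ⋯ × V_(c k)` times itself; by the methods of
`MP_e12fcd_ag.CyclicCoversAllDegrees` it is a combination of products of the forms `Q (v, T ^ a w)` over
matchings of the `2 k` variables. The terms in which each variable of the first copy is matched with a
variable of the second copy are detected by test vectors: in each `V_(i, b)` one chooses linearly
independent vectors of type `(n, 0)` and dual vectors of type `(0, n)` in `V_(i, - b)` (by the
positivity of the polarization); the other terms vanish at these vectors. So these terms are zero for
the eigenspaces where there are sufficiently many such vectors, and hence, by the Galois action on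
the coefficients, for all their conjugates.
-/

namespace Pool.Agent.Results.MP_1c689d_ag.PowersOfCyclicCovers

open Pool.Agent.TH125.Nod Pool.Agent.H842.CR Pool.Agent.H842.CW Pool.Agent.H842.GH Finset

/-- `x` is a polarized variation of rational Hodge structure on `V = ⊕ V_i` over `U` with an
automorphism `T` of finite order without the eigenvalues `1` and `- 1`, and for each `i` some
monodromy operator acts on `V_i` by the Picard-Lefschetz formula of cyclic coverings. Then for all
`u` in `U` outside the zeros of countably many nonzero analytic functions the following is true. Let
`n i > 0` be numbers (the highest value of `r - q` for the Hodge numbers `h^(r, q)` of `V_i`), let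
`V_(c 1), …, V_(c k)` be blocks such that one of the following conditions is satisfied:

(1) `V_i` is of the type of the part of the primitive cohomology of a cyclic covering of degree
`q i > 2` of the projective space of dimension `n i`, branched along a smooth hypersurface of degree
`q i * m i`, where the covering transformation has no eigenvalue `- 1`, and the number of the `j` with
`c j = i` is at most the binomial coefficient of `m i - 1` over `n i`, or

(2) the number of the `j` with `c j = i` is less than half of the dimension of each nonzero eigenspace
of `T` in `V_i`, and for all nonzero eigenspaces `V_(c 1, b 1), …, V_(c k, b k)` of `T` there is a unit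
`t` modulo `d` such that the dimension of the part of `V_(c j, t b j)` where the Hodge operator is
`n (c j)` is at least the number of the `j'` with `(c j', b j') = (c j, b j)`, for all `j`.

Let `W` be a sub-Hodge structure of `V_(c 1) ⊗ ⋯ ⊗ V_(c k)` (the space of multilinear forms), and
suppose that the part of `W` where the Hodge operator is `n (c 1) + ⋯ + n (c k)` is zero. Then `W` is
contained in the span of the products of the forms `Q (v_p, T ^ a v_q)`, `p ≠ q`, with forms in the
other variables. -/
theorem result {E : Type} [NormedAddCommGroup E] [NormedSpace ℂ E] {U : Set E}
    (hU : IsConnected U) {ι B : Type} [Fintype ι] [DecidableEq ι] [Fintype B] [DecidableEq B]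
    (κ : B → ι) (s : ι → ℤ) (Q T : Matrix B B ℚ) (d : ℕ) (x : E → Matrix B B ℂ)
    (hV : IsVHS U x) (hP : IsPolarized U κ s Q x) (hT : IsAut U κ Q x T d)
    (hR : ∀ i, HasReflection U κ Q x (fun _ => (0 : Matrix Unit Unit ℂ)) T i) :
    ∃ h : ℕ → E → ℂ, (∀ n, AnalyticOnNhd ℂ (h n) U ∧ ∃ u ∈ U, h n u ≠ 0) ∧
      ∀ u ∈ U, (∀ n, h n u ≠ 0) → ∀ (k : ℕ) (c : Fin k → ι) (n : ι → ℕ),
        (∀ j, 0 < n (c j)) →
        ((∃ q m : ι → ℕ, (∀ i, 3 ≤ q i ∧ 0 < m i ∧ 0 < n i) ∧ IsCover κ T (x u) q m n ∧
            ∀ i, (univ.filter fun j => c j = i).card ≤ (m i - 1).choose (n i)) ∨
          ((∀ i z, eigenpart κ T i z ≠ ⊥ →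
              2 * (univ.filter fun j => c j = i).card < Module.finrank ℂ (eigenpart κ T i z)) ∧
            Big κ T (x u) d (fun i => (n i : ℤ)) c)) →
        ∀ W : Submodule ℚ ((Fin k → B) → ℚ), W ≤ forms κ c → IsSubHodge (x u) W →
          (∀ f ∈ cSpan W, opF (x u) f = ((∑ j, n (c j) : ℕ) : ℂ) • f → f = 0) →
          W ≤ Submodule.span ℚ (diagonals κ Q T k) :=
  main_cover hU hV hP hT hR

end Pool.Agent.Results.MP_1c689d_ag.PowersOfCyclicCovers
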