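import Pool.Agent.H833.CV.Low

/-!
# Coniveau one for the powers of elliptic K3 surfaces, and their products with other varieties

Let `S` be a complex K3 surface with a fibration in curves of genus one and with
`End_HS(T) = ℚ`, where `T` is the transcendental part of `H²(S, ℚ)`. (For example the very general
member of each family of lattice polarized K3 surfaces of Picard number at least five; all K3 surfaces
of Picard number at least five have such a fibration.) We prove, without any other
hypothesis: for all `m` every sub-Hodge structure `W` of `T ^ (⊗ m) ⊂ H^(2 m)(S ^ m, ℚ)`
without part of type `(2 m, 0)` restricts to zero on a dense Zariski open subset of `S ^ m`. By the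
Künneth formula, and since the classes of divisors and of points restrict to zero on open subsets, it
follows that every sub-Hodge structure of `H^i(S ^ m, ℚ)` without part of type `(i, 0)` restricts to
zero on a dense open subset, for all `i` and `m`; and so Q1 is true for all varieties `Y` which are
dominated by a power of `S`.

More generally, let `Z` be another variety (a point in the case above) and `H = H^j(Z, ℚ)`. Then the
same is true for the sub-Hodge structures of `T ^ (⊗ m) ⊗ H ⊂ H^(2 m + j)(S ^ m × Z, ℚ)` if the
corresponding statement holds for `H` itself, and this is so for `j ≤ 2` and all `Z` (so for all `j` if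
`Z` is a curve or a surface); here we assume that `T` is not of rank `4` and that the periods of `S` are
independent of those of `Z`: some entry of the Hodge operator of `T` is not a rational linear combination
of the entries of the Hodge operator of `H`. The theorem can be iterated: for `Z` one can take
products of powers of other K3 surfaces with another curve or surface.

The proof. Let `K` be an algebraic closure of the function field of `Y = S ^ m × Z` (or of any complex
variety). By the theorem `MP_83b46e_ag.EllipticK3` (Voisin's conjecture for the surface `S` over `K`)
the zero-cycle `(x - o) × (x' - o)` is symmetric in the points `x`, `x'` of `S` over `K`. So the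
product `T ^ (⊗ m) → H^(2 m)` of the pull backs of the classes under the `m` coordinates is symmetric
at the generic point, and it is zero on the multiples of the class of the diagonal. Therefore it
factors through the homogeneous coordinate ring of the quadric of the isotropic vectors. On the other
hand the Lie algebra `so(T)` acts on `W` (Zarhin's theorem), and as `W` is zero at the isotropic
vector `conj ω` it is zero on the quadric.

In the Lean statement the geometry at the generic point is described by `Classes`, and the
restriction of `H^j(Z)` to the generic point by `ρ`; `T` and its Hodge operator `T.z` are given
by the intersection form, in an orthogonal basis, and by the period `T.ω`.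
-/

set_option autoImplicit false

namespace Pool.Agent.Results.MP_1c689d_ag.PowersOfEllipticK3

open Pool.Agent.Q263.K3 (K3Type EndQ)
open Pool.Agent.H833.EK Pool.Agent.H833.CV

/-- **The generalised Hodge conjecture in coniveau one for the powers of an elliptic K3 surface with
`End(T) = ℚ` and their products with varieties `Z` with independent periods**: all sub-Hodge
structures without forms of type `(i, 0)` vanish at the generic point. -/
theorem result {K : Type} [Field K] [CharZero K] [IsAlgClosed K] (S : Geo K) (hS : EllK3 S)
    {r : ℕ} (T : K3Type r) (hE : EndQ T) {A : Type} [CommRing A] [Algebra ℂ A]
    (c : Classes S T A) {M : Type} [AddCommGroup M] [Module ℂ M] [Module A M]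
    [IsScalarTower ℂ A M] {ι : Type} [Fintype ι] [DecidableEq ι] (B : Matrix ι ι ℂ) (j : ℕ)
    (ρ : ι → M) (hZ : LowDeg B j ρ ∨ Con B j ρ)
    (hB : B = 0 ∨ r ≠ 4 ∧ ∃ a b : Fin r,
      T.z a b ∉ Submodule.span ℚ (Set.range fun p : ι × ι => B p.1 p.2))
    (m : ℕ) (x : Fin m → S.Pt K) :
    Con (hodgeM T m B) (2 * m + j) fun p => (∏ l, c.cl (x l) (p.1 l)) • ρ p.2 :=
  con_mul hS c hE hB (hZ.elim LowDeg.con id) x

end Pool.Agent.Results.MP_1c689d_ag.PowersOfEllipticK3
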